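import Pool.Agent.H.MP_def589_lc.B

set_option autoImplicit false

namespace Pool.Agent.Results.MP_def589_lc.Gap

open Pool.Agent.H.MP_369bda_lc Pool.Agent.H.MP_4814b8_lc Pool.Agent.H.MP_def589_lc

theorem result : ∃ W : Set (Stream' (Fin 5)),
    (∀ (x : List (Fin 5)) (y : Stream' (Fin 5)), x ++ₛ y ∈ W ↔ y ∈ W) ∧
      (∃ k, GenMem W k) ∧ ∀ k, ¬ Mem W k Arena :=
  ⟨_, pi, ⟨12, genW⟩, chrW⟩

end Pool.Agent.Results.MP_def589_lc.Gap
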